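import Pool.Agent.H431R3.Inv.Stmts

set_option autoImplicit false

/-! # The combinatorial data for upper density (MP_3e9a14_an) -/

namespace Pool.Agent.H664R3.UF

open Pool.Agent.H615R3 Pool.Agent.H431R3.Inv Filter Topology

/-- level of the scale `r` -/
def lv (r : ℕ) : ℕ := r.unpair.1 + 1

/-- scales -/
def P (r : ℕ) : ℕ := 64 ^ ((r + 1) ^ 2)

/-- steps -/
def M (a : ℕ) : ℕ := 64 ^ a

/-- start factor -/
def L (a : ℕ) : ℕ := 2 ^ a

/-- return sets -/
def E (a : ℕ) : Set ℕ := {n | ∃ r, lv r = a ∧ L a * P r ≤ n ∧ n < (L a + 1) * P r ∧ M a ∣ n}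

/-- the set on which depth `a` is required -/
def D (a : ℕ) : Set ℕ := {k | (∃ n ∈ E a, n ≤ k + a ∧ k ≤ n + a) ∨
  (∃ b, ∃ n ∈ E a, ∃ m ∈ E b, m < n ∧ n ≤ k + m + b ∧ k + m ≤ n + b)}

/-- depth at least `j` at `k` -/
def Deep (j k : ℕ) : Prop := ∃ a, ∃ k' ∈ D a, j + (k' - k) + (k - k') ≤ a

lemma lv_le (r : ℕ) : lv r ≤ r + 1 := by
  unfold lv
  have := Nat.unpair_left_le r
  omega

lemma lv_pos (r : ℕ) : 1 ≤ lv r := by unfold lv; omega

lemma P_pos (r : ℕ) : 0 < P r := by unfold P; positivity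

lemma P_big (r : ℕ) : 8 * (r + 1) ≤ P r := by
  have h1 : r + 1 < 2 ^ (r + 1) := Nat.lt_two_pow_self
  have h2 : (64 : ℕ) ^ (r + 1) ≤ P r := by
    unfold P
    exact Nat.pow_le_pow_right (by norm_num) (by nlinarith)
  have h3 : (64 : ℕ) ^ (r + 1) = 2 ^ (r + 1) * 32 ^ (r + 1) := by
    rw [← mul_pow]
    norm_num
  have h4 : 32 ≤ (32 : ℕ) ^ (r + 1) := by
    calc 32 = 32 ^ 1 := by norm_num
      _ ≤ 32 ^ (r + 1) := Nat.pow_le_pow_right (by norm_num) (by omega)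
  nlinarith

lemma P_succ (r : ℕ) : (2 ^ (r + 1) + 1) * P r + 2 * (r + 1) ≤ P (r + 1) := by
  have h1 : r + 1 < 2 ^ (r + 1) := Nat.lt_two_pow_self
  have h2 : P (r + 1) = P r * 64 ^ (2 * r + 3) := by
    unfold P
    rw [← pow_add]
    congr 1
    ring
  have h3 : 2 ^ (r + 1) * 8 ≤ 64 ^ (2 * r + 3) := by
    have : (64 : ℕ) ^ (2 * r + 3) = 2 ^ (r + 1) * 2 ^ (11 * r + 17) := by
      rw [← pow_add, show (64 : ℕ) = 2 ^ 6 by norm_num, ← pow_mul]
      congr 1
      ring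
    rw [this]
    apply Nat.mul_le_mul_left
    calc 8 = 2 ^ 3 := by norm_num
      _ ≤ 2 ^ (11 * r + 17) := Nat.pow_le_pow_right (by norm_num) (by omega)
  have hP := P_pos r
  rw [h2]
  calc (2 ^ (r + 1) + 1) * P r + 2 * (r + 1) ≤ (2 ^ (r + 1) + 1) * P r + 2 ^ (r + 1) * 2 * P r := by
        have : 2 * (r + 1) ≤ 2 ^ (r + 1) * 2 * P r := by nlinarith
        omega
    _ ≤ P r * (2 ^ (r + 1) * 8) := by nlinarith [Nat.one_le_two_pow (n := r + 1)]
    _ ≤ P r * 64 ^ (2 * r + 3) := Nat.mul_le_mul_left _ h3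

lemma P_mono {r s : ℕ} (h : r ≤ s) : P r ≤ P s := by
  unfold P
  apply Nat.pow_le_pow_right (by norm_num)
  exact Nat.pow_le_pow_left (by omega) 2

lemma L_le (r : ℕ) : L (lv r) ≤ 2 ^ (r + 1) := by
  unfold L
  exact Nat.pow_le_pow_right (by norm_num) (lv_le r)

lemma two_le_L {a : ℕ} (h : 1 ≤ a) : 2 ≤ L a := by
  unfold L
  calc 2 = 2 ^ 1 := by norm_num
    _ ≤ 2 ^ a := Nat.pow_le_pow_right (by norm_num) h

lemma scale_lt {s r : ℕ} (h : s < r) : (L (lv s) + 1) * P s + 2 * (s + 1) ≤ P r := by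
  have h1 := P_succ s
  have h2 : P (s + 1) ≤ P r := P_mono h
  have h3 : (L (lv s) + 1) * P s ≤ (2 ^ (s + 1) + 1) * P s :=
    Nat.mul_le_mul_right _ (by have := L_le s; omega)
  omega

lemma M_big {a : ℕ} (h : 1 ≤ a) : 32 * a ≤ M a := by
  have h1 : a < 2 ^ a := Nat.lt_two_pow_self
  have h3 : (64 : ℕ) ^ a = 2 ^ a * 32 ^ a := by
    rw [← mul_pow]
    norm_num
  have h4 : 32 ≤ (32 : ℕ) ^ a := by
    calc 32 = 32 ^ 1 := by norm_num
      _ ≤ 32 ^ a := Nat.pow_le_pow_right (by norm_num) h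
  unfold M
  rw [h3]
  nlinarith

lemma E_pos {a n : ℕ} (h : n ∈ E a) : 1 ≤ a := by
  obtain ⟨r, hr, -⟩ := h
  rw [← hr]
  exact lv_pos r

lemma E_start {a n : ℕ} (h : n ∈ E a) : 8 * a ≤ n := by
  have ha := E_pos h
  obtain ⟨r, hr, h1, -, -⟩ := h
  have h2 := P_big r
  have h3 := lv_le r
  have h4 := two_le_L ha
  have h5 : P r ≤ L a * P r := Nat.le_mul_of_pos_left _ (by omega)
  omega

lemma dvd_gap {a n m : ℕ} (hn : M a ∣ n) (hm : M a ∣ m) (h : n < m) :
    ∃ i, 1 ≤ i ∧ m = n + i * M a := by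
  obtain ⟨p, rfl⟩ := hn
  obtain ⟨q, rfl⟩ := hm
  have hpq : p < q := lt_of_mul_lt_mul_left h (Nat.zero_le _)
  refine ⟨q - p, by omega, ?_⟩
  obtain ⟨d, rfl⟩ : ∃ d, q = p + d := ⟨q - p, by omega⟩
  rw [Nat.add_sub_cancel_left]
  ring

/-- comparison of two return times -/
lemma cmp {a b n m : ℕ} (hn : n ∈ E a) (hm : m ∈ E b) (h : m < n) :
    (a = b ∧ ∃ i, 1 ≤ i ∧ n = m + i * M a) ∨
    (∃ r, lv r = a ∧ L a * P r ≤ n ∧ n < (L a + 1) * P r ∧ m + 2 * b ≤ P r ∧ b ≤ r + 1) := by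
  have ha := E_pos hn
  have hb := E_pos hm
  obtain ⟨r, hr, h1, h2, h3⟩ := hn
  obtain ⟨s, hs, g1, g2, g3⟩ := hm
  rcases lt_trichotomy s r with hsr | hsr | hsr
  · right
    have h5 := scale_lt hsr
    have h6 := lv_le s
    rw [hs] at h5 h6
    exact ⟨r, hr, h1, h2, by omega, by omega⟩
  · left
    subst hsr
    have : a = b := by rw [← hr, ← hs]
    subst this
    exact ⟨rfl, dvd_gap g3 h3 h⟩
  · exfalso
    have h5 := scale_lt hsr
    rw [hr] at h5
    have h6 := two_le_L hb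
    have h7 : P s ≤ L b * P s := Nat.le_mul_of_pos_left _ (by omega)
    omega

lemma E_sep {a b n m : ℕ} (hn : n ∈ E a) (hm : m ∈ E b) (h : n < m) : n + a + b < m := by
  have ha := E_pos hn
  have hb := E_pos hm
  rcases cmp hm hn h with ⟨hab, i, hi, h1⟩ | ⟨r, hr, h1, h2, h3, h4⟩
  · subst hab
    have := M_big ha
    have h5 : M b ≤ i * M b := Nat.le_mul_of_pos_left _ (by omega)
    omega
  · have h5 := P_big r
    have h6 := two_le_L hb
    have h7 : 2 * P r ≤ L b * P r := Nat.mul_le_mul_right _ h6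
    have h8 := lv_le r
    rw [hr] at h8
    omega

/-- structure of the required set -/
lemma D_cases {a k : ℕ} (h : k ∈ D a) : 1 ≤ a ∧
    ((∃ i, 1 ≤ i ∧ i * M a ≤ k + a ∧ k ≤ i * M a + a) ∨
     (∃ r, lv r = a ∧ L a * P r ≤ k + P r ∧ k < (L a + 1) * P r)) := by
  rcases h with ⟨n, hn, h1, h2⟩ | ⟨b, n, hn, m, hm, hmn, h1, h2⟩
  · have ha := E_pos hn
    refine ⟨ha, Or.inl ?_⟩
    have hs := E_start hn
    obtain ⟨r, hr, h3, h4, i, hi⟩ := hn
    refine ⟨i, ?_, ?_, ?_⟩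
    · rcases Nat.eq_zero_or_pos i with h | h
      · subst h; omega
      · exact h
    · rw [mul_comm, ← hi]; exact h1
    · rw [mul_comm, ← hi]; exact h2
  · have ha := E_pos hn
    refine ⟨ha, ?_⟩
    rcases cmp hn hm hmn with ⟨hab, i, hi, h3⟩ | ⟨r, hr, h3, h4, h5, h6⟩
    · left
      subst hab
      exact ⟨i, hi, by omega, by omega⟩
    · right
      have hs := E_start hm
      exact ⟨r, hr, by omega, by omega⟩

lemma D_ge {a k : ℕ} (h : k ∈ D a) : a ≤ k := by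
  obtain ⟨ha, ⟨i, hi, h1, h2⟩ | ⟨r, hr, h1, h2⟩⟩ := D_cases h
  · have := M_big ha
    have h5 : M a ≤ i * M a := Nat.le_mul_of_pos_left _ (by omega)
    omega
  · have h5 := P_big r
    have h6 := two_le_L ha
    have h7 : 2 * P r ≤ L a * P r := Nat.mul_le_mul_right _ h6
    have h8 := lv_le r
    rw [hr] at h8
    omega

lemma Deep_le {j k : ℕ} (h : Deep j k) : j ≤ k := by
  obtain ⟨a, k', hk', h1⟩ := h
  have := D_ge hk'
  omega

/-- the depth function -/
noncomputable def u (k : ℕ) : ℕ := sSup {j | j = 0 ∨ Deep j k}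

lemma u_mem (k : ℕ) : u k = 0 ∨ Deep (u k) k := by
  have hne : ({j | j = 0 ∨ Deep j k} : Set ℕ).Nonempty := ⟨0, Or.inl rfl⟩
  have hb : BddAbove ({j | j = 0 ∨ Deep j k} : Set ℕ) := by
    refine ⟨k, ?_⟩
    rintro j (rfl | hj)
    · exact Nat.zero_le _
    · exact Deep_le hj
  exact Nat.sSup_mem hne hb

lemma le_u {j k : ℕ} (h : Deep j k) : j ≤ u k := by
  have hb : BddAbove ({j | j = 0 ∨ Deep j k} : Set ℕ) := by
    refine ⟨k, ?_⟩
    rintro j (rfl | hj)
    · exact Nat.zero_le _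
    · exact Deep_le hj
  exact le_csSup hb (Or.inr h)

lemma deep_of_le {j k : ℕ} (hj : 1 ≤ j) (h : j ≤ u k) : Deep j k := by
  rcases u_mem k with h0 | ⟨a, k', hk', h1⟩
  · omega
  · exact ⟨a, k', hk', by omega⟩

theorem data : Data E u where
  zero := by
    rcases u_mem 0 with h | h
    · exact h
    · have := Deep_le h
      omega
  lip1 := by
    intro k
    rcases u_mem (k + 1) with h | ⟨a, k', hk', h1⟩
    · omega
    · rcases Nat.eq_zero_or_pos (u (k + 1)) with h0 | h0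
      · omega
      · have : u (k + 1) - 1 ≤ u k := le_u ⟨a, k', hk', by omega⟩
        omega
  lip2 := by
    intro k
    rcases u_mem k with h | ⟨a, k', hk', h1⟩
    · omega
    · rcases Nat.eq_zero_or_pos (u k) with h0 | h0
      · omega
      · have : u k - 1 ≤ u (k + 1) := le_u ⟨a, k', hk', by omega⟩
        omega
  start := by
    intro a n hn
    have h1 := E_start hn
    have h2 := E_pos hn
    omega
  sep := fun a b n hn m hm h => E_sep hn hm h
  deep0 := fun a n hn k h1 h2 => le_u ⟨a, k, Or.inl ⟨n, hn, h1, h2⟩, by omega⟩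
  deep := fun a b n hn m hm h k h1 h2 =>
    le_u ⟨a, k, Or.inr ⟨b, n, hn, m, hm, h, h1, h2⟩, by omega⟩

/-! ### upper density of the return sets -/

lemma ncard_Icc_le' (A : Set ℕ) (N : ℕ) : (A ∩ Set.Icc 1 N).ncard ≤ N := by
  have := ncard_Icc_le A 0 N
  simpa using this

lemma bdd_le (A : Set ℕ) : IsBoundedUnder (· ≤ ·) atTop
    (fun N : ℕ => ((A ∩ Set.Icc 1 N).ncard : ℝ) / N) :=
  isBoundedUnder_of ⟨1, fun N => by
    have := ratio_le_one A 0 N
    simpa using this⟩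

lemma bdd_ge (A : Set ℕ) : IsBoundedUnder (· ≥ ·) atTop
    (fun N : ℕ => ((A ∩ Set.Icc 1 N).ncard : ℝ) / N) :=
  isBoundedUnder_of ⟨0, fun N => by positivity⟩

lemma ud_pos {A : Set ℕ} {c : ℝ} (hc : 0 < c)
    (h : ∀ N₀ : ℕ, ∃ N, N₀ ≤ N ∧ 1 ≤ N ∧ c * N ≤ ((A ∩ Set.Icc 1 N).ncard : ℝ)) :
    0 < upperDensity A := by
  refine lt_of_lt_of_le hc ?_
  refine le_limsup_of_frequently_le ?_ (bdd_le A)
  rw [frequently_atTop]
  intro K
  obtain ⟨N, hN, hN1, h2⟩ := h K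
  refine ⟨N, hN, ?_⟩
  rw [le_div_iff₀ (by exact_mod_cast hN1)]
  exact h2

lemma ud_le {A : Set ℕ} {c : ℝ}
    (h : ∀ N : ℕ, 1 ≤ N → ((A ∩ Set.Icc 1 N).ncard : ℝ) ≤ c * N) :
    upperDensity A ≤ c := by
  refine limsup_le_of_le (bdd_ge A).isCoboundedUnder_le ?_
  filter_upwards [eventually_ge_atTop 1] with N hN
  rw [div_le_iff₀ (by exact_mod_cast hN)]
  exact h N hN

lemma card_E (a r : ℕ) (hr : lv r = a) (hd : a ≤ (r + 1) ^ 2) :
    P r / M a ≤ (E a ∩ Set.Icc 1 ((L a + 1) * P r)).ncard := by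
  have ha : 1 ≤ a := by rw [← hr]; exact lv_pos r
  have hMP : M a ∣ P r := by
    unfold M P
    exact pow_dvd_pow _ hd
  have hM : 0 < M a := by unfold M; positivity
  have hP := P_pos r
  have hsub : (((Finset.range (P r / M a)).image (fun i => L a * P r + i * M a) : Finset ℕ) : Set ℕ) ⊆
      E a ∩ Set.Icc 1 ((L a + 1) * P r) := by
    intro n hn
    simp only [Finset.coe_image, Set.mem_image, Finset.coe_range, Set.mem_Iio] at hn
    obtain ⟨i, hi, rfl⟩ := hn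
    have h1 : i * M a < P r := by
      calc i * M a < (P r / M a) * M a := Nat.mul_lt_mul_of_pos_right hi hM
        _ ≤ P r := Nat.div_mul_le_self _ _
    have h2 : (L a + 1) * P r = L a * P r + P r := by ring
    have h3 := two_le_L ha
    have h4 : P r ≤ L a * P r := Nat.le_mul_of_pos_left _ (by omega)
    refine ⟨⟨r, hr, by omega, by omega, ?_⟩, ?_⟩
    · exact dvd_add (Dvd.dvd.mul_left hMP _) (Dvd.intro_left _ rfl)
    · rw [Set.mem_Icc]
      omega
  have hcard : ((Finset.range (P r / M a)).image (fun i => L a * P r + i * M a)).card = P r / M a := by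
    rw [Finset.card_image_of_injective, Finset.card_range]
    intro i j hij
    have : i * M a = j * M a := by
      simp only at hij
      omega
    exact Nat.eq_of_mul_eq_mul_right hM this
  calc P r / M a = ((Finset.range (P r / M a)).image (fun i => L a * P r + i * M a)).card := hcard.symm
    _ = ((((Finset.range (P r / M a)).image (fun i => L a * P r + i * M a) : Finset ℕ) : Set ℕ)).ncard := by
        rw [Set.ncard_coe_finset]
    _ ≤ _ := Set.ncard_le_ncard hsub ((Set.finite_Icc _ _).subset Set.inter_subset_right)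

theorem ud_E (a : ℕ) (ha : 1 ≤ a) : 0 < upperDensity (E a) := by
  have hM : 0 < M a := by unfold M; positivity
  refine ud_pos (c := 1 / ((L a + 1) * M a)) (by positivity) ?_
  intro N₀
  set r := Nat.pair (a - 1) (N₀ + a) with hrdef
  have hr : lv r = a := by
    unfold lv
    rw [hrdef, Nat.unpair_pair]
    simp only
    omega
  have hr2 : N₀ + a ≤ r := Nat.right_le_pair _ _
  have hP := P_big r
  have hLP : P r ≤ (L a + 1) * P r := Nat.le_mul_of_pos_left _ (by omega)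
  refine ⟨(L a + 1) * P r, by omega, by omega, ?_⟩
  have hd : a ≤ (r + 1) ^ 2 := by nlinarith
  have h1 := card_E a r hr hd
  obtain ⟨q, hq⟩ : M a ∣ P r := by
    unfold M P
    exact pow_dvd_pow _ hd
  have h2 : P r / M a = q := by rw [hq]; exact Nat.mul_div_cancel_left _ hM
  rw [h2] at h1
  have h3 : (1 : ℝ) / ((L a + 1) * M a) * (((L a + 1) * P r : ℕ) : ℝ) = q := by
    rw [hq]
    push_cast
    have hM' : (M a : ℝ) ≠ 0 := by exact_mod_cast hM.ne'
    have hL' : (L a : ℝ) + 1 ≠ 0 := by positivity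
    field_simp
  rw [h3]
  exact_mod_cast h1

/-! ### upper density of the deep sets -/

lemma deep_cases {j k : ℕ} (h : Deep j k) : ∃ a, 1 ≤ a ∧ j ≤ a ∧
    ((∃ i, 1 ≤ i ∧ i * M a ≤ k + 2 * a ∧ k ≤ i * M a + 2 * a) ∨
     (∃ r, lv r = a ∧ L a * P r ≤ k + 2 * P r ∧ k < (L a + 2) * P r)) := by
  obtain ⟨a, k', hk', h1⟩ := h
  obtain ⟨ha, ⟨i, hi, h2, h3⟩ | ⟨r, hr, h2, h3⟩⟩ := D_cases hk'
  · exact ⟨a, ha, by omega, Or.inl ⟨i, hi, by omega, by omega⟩⟩
  · have h4 := P_big r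
    have h5 := lv_le r
    rw [hr] at h5
    refine ⟨a, ha, by omega, Or.inr ⟨r, hr, by omega, ?_⟩⟩
    have : (L a + 2) * P r = (L a + 1) * P r + P r := by ring
    omega

/-- covering set of type I -/
def T1 (j x : ℕ) : Finset ℕ := (Finset.Ico j (x + 1)).biUnion fun a =>
  (Finset.Icc 1 (3 * x / M a)).biUnion fun i => Finset.Icc (i * M a - 2 * a) (i * M a + 2 * a)

/-- scales of type II -/
def F (c x N : ℕ) : Finset ℕ := (Finset.range N).filter fun r => c * P r ≤ x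

/-- covering set of type II -/
def T2 (c x N : ℕ) : Finset ℕ := (F c x N).biUnion fun r =>
  Finset.Icc (L (lv r) * P r - 2 * P r) (L (lv r) * P r + 2 * P r)

lemma cover {j x k : ℕ} (hj : 2 ≤ j) (hkx : k ≤ x) (h : j ≤ u k) :
    k ∈ T1 j x ∪ T2 (2 ^ j - 2) x (x + 1) := by
  obtain ⟨a, ha, hja, ⟨i, hi, h2, h3⟩ | ⟨r, hr, h2, h3⟩⟩ := deep_cases (deep_of_le (by omega) h)
  · rw [Finset.mem_union]
    left
    unfold T1
    rw [Finset.mem_biUnion]
    have hM := M_big ha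
    have h5 : M a ≤ i * M a := Nat.le_mul_of_pos_left _ (by omega)
    refine ⟨a, ?_, ?_⟩
    · rw [Finset.mem_Ico]
      omega
    · rw [Finset.mem_biUnion]
      refine ⟨i, ?_, ?_⟩
      · rw [Finset.mem_Icc]
        refine ⟨hi, ?_⟩
        rw [Nat.le_div_iff_mul_le (by omega)]
        omega
      · rw [Finset.mem_Icc]
        omega
  · rw [Finset.mem_union]
    right
    unfold T2
    rw [Finset.mem_biUnion]
    have hP := P_big r
    have hLj : 2 ^ j ≤ L a := by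
      unfold L
      exact Nat.pow_le_pow_right (by norm_num) hja
    have h6 : 4 ≤ 2 ^ j := by
      calc 4 = 2 ^ 2 := by norm_num
        _ ≤ 2 ^ j := Nat.pow_le_pow_right (by norm_num) hj
    obtain ⟨e, he⟩ : ∃ e, 2 ^ j = e + 2 := ⟨2 ^ j - 2, by omega⟩
    have h7 : (e + 2) * P r ≤ L a * P r := Nat.mul_le_mul_right _ (by omega)
    have h8 : (e + 2) * P r = e * P r + 2 * P r := by ring
    have h9 : (L a + 2) * P r = L a * P r + 2 * P r := by ring
    have h10 : P r ≤ e * P r := Nat.le_mul_of_pos_left _ (by omega)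
    refine ⟨r, ?_, ?_⟩
    · unfold F
      rw [Finset.mem_filter, Finset.mem_range, he, Nat.add_sub_cancel]
      omega
    · rw [Finset.mem_Icc, hr]
      omega

lemma card_T1 (j x : ℕ) : (T1 j x).card ≤ ∑ a ∈ Finset.Ico j (x + 1), (3 * x / M a) * (4 * a + 1) := by
  unfold T1
  refine Finset.card_biUnion_le.trans (Finset.sum_le_sum fun a _ => ?_)
  refine Finset.card_biUnion_le.trans ?_
  calc ∑ i ∈ Finset.Icc 1 (3 * x / M a), (Finset.Icc (i * M a - 2 * a) (i * M a + 2 * a)).card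
      ≤ ∑ i ∈ Finset.Icc 1 (3 * x / M a), (4 * a + 1) := by
        refine Finset.sum_le_sum fun i _ => ?_
        rw [Nat.card_Icc]
        omega
    _ = (3 * x / M a) * (4 * a + 1) := by simp

lemma sum_P_le (N : ℕ) : ∑ r ∈ Finset.range N, P r ≤ P N := by
  induction N with
  | zero => simp
  | succ N ih =>
    rw [Finset.sum_range_succ]
    have h1 := P_succ N
    have h2 : 2 * P N ≤ (2 ^ (N + 1) + 1) * P N :=
      Nat.mul_le_mul_right _ (by have := Nat.one_le_two_pow (n := N + 1); omega)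
    omega

lemma sum_F (c x N : ℕ) : c * ∑ r ∈ F c x N, P r ≤ 2 * x := by
  induction N with
  | zero => simp [F]
  | succ N ih =>
    unfold F at ih ⊢
    rw [Finset.range_add_one, Finset.filter_insert]
    split_ifs with h
    · have h1 : ∑ r ∈ insert N ((Finset.range N).filter fun r => c * P r ≤ x), P r
          ≤ ∑ r ∈ insert N (Finset.range N), P r :=
        Finset.sum_le_sum_of_subset (Finset.insert_subset_insert _ (Finset.filter_subset _ _))
      rw [← Finset.range_add_one, Finset.sum_range_succ] at h1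
      have h2 := sum_P_le N
      calc c * ∑ r ∈ insert N ((Finset.range N).filter fun r => c * P r ≤ x), P r
          ≤ c * (2 * P N) := Nat.mul_le_mul_left _ (by omega)
        _ = 2 * (c * P N) := by ring
        _ ≤ 2 * x := Nat.mul_le_mul_left _ h
    · exact ih

lemma card_T2 (c x N : ℕ) : c * (T2 c x N).card ≤ 10 * x := by
  have h1 : (T2 c x N).card ≤ 5 * ∑ r ∈ F c x N, P r := by
    unfold T2
    refine Finset.card_biUnion_le.trans ?_
    rw [Finset.mul_sum]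
    refine Finset.sum_le_sum fun r _ => ?_
    rw [Nat.card_Icc]
    have := P_pos r
    omega
  have h2 := sum_F c x N
  calc c * (T2 c x N).card ≤ c * (5 * ∑ r ∈ F c x N, P r) := Nat.mul_le_mul_left _ h1
    _ = 5 * (c * ∑ r ∈ F c x N, P r) := by ring
    _ ≤ 5 * (2 * x) := Nat.mul_le_mul_left _ h2
    _ = 10 * x := by ring

lemma four_le (a : ℕ) : 4 * a + 1 ≤ 8 ^ a := by
  induction a with
  | zero => simp
  | succ a ih =>
    rw [pow_succ]
    omega

lemma card_T1' (j x : ℕ) : ((T1 j x).card : ℝ) ≤ 4 * (1 / 2) ^ j * x := by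
  have h1 : ((T1 j x).card : ℝ) ≤
      ((∑ a ∈ Finset.Ico j (x + 1), (3 * x / M a) * (4 * a + 1) : ℕ) : ℝ) := by
    exact_mod_cast card_T1 j x
  refine h1.trans ?_
  push_cast
  have h2 : ∀ a ∈ Finset.Ico j (x + 1),
      (((3 * x / M a : ℕ) : ℝ) * (4 * (a : ℝ) + 1)) ≤ 3 * x * (1 / 8) ^ a := by
    intro a _
    have h3 : ((3 * x / M a : ℕ) : ℝ) ≤ 3 * x / 64 ^ a := by
      refine (Nat.cast_div_le).trans ?_
      unfold M
      push_cast
      exact le_rfl
    have h4 : (4 * (a : ℝ) + 1) ≤ 8 ^ a := by exact_mod_cast four_le a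
    calc ((3 * x / M a : ℕ) : ℝ) * (4 * (a : ℝ) + 1) ≤ (3 * x / 64 ^ a) * 8 ^ a := by
          gcongr
      _ = 3 * x * (1 / 8) ^ a := by
          have : (64 : ℝ) ^ a = 8 ^ a * 8 ^ a := by rw [← mul_pow]; norm_num
          rw [this, one_div, inv_pow]
          field_simp
  calc ∑ a ∈ Finset.Ico j (x + 1), (((3 * x / M a : ℕ) : ℝ) * (4 * (a : ℝ) + 1))
      ≤ ∑ a ∈ Finset.Ico j (x + 1), 3 * x * (1 / 8 : ℝ) ^ a := Finset.sum_le_sum h2
    _ = 3 * x * ∑ a ∈ Finset.Ico j (x + 1), (1 / 8 : ℝ) ^ a := by rw [Finset.mul_sum]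
    _ ≤ 3 * x * ((1 / 8 : ℝ) ^ j / (1 - 1 / 8)) := by
        gcongr
        exact geom_sum_Ico_le_of_lt_one (by norm_num) (by norm_num)
    _ ≤ 4 * (1 / 2) ^ j * x := by
        have h5 : (1 / 8 : ℝ) ^ j ≤ (1 / 2) ^ j := by
          apply pow_le_pow_left₀ (by norm_num) (by norm_num)
        have hx : (0 : ℝ) ≤ x := Nat.cast_nonneg _
        have h6 : (3 : ℝ) * x * ((1 / 8 : ℝ) ^ j / (1 - 1 / 8)) = (24 / 7) * ((1 / 8) ^ j * x) := by
          ring
        have h7 : (1 / 8 : ℝ) ^ j * x ≤ (1 / 2) ^ j * x := by gcongr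
        have h8 : (0 : ℝ) ≤ (1 / 2) ^ j * x := by positivity
        rw [h6]
        nlinarith

lemma card_T2' (j x N : ℕ) (hj : 2 ≤ j) :
    ((T2 (2 ^ j - 2) x N).card : ℝ) ≤ 20 * (1 / 2) ^ j * x := by
  have h1 := card_T2 (2 ^ j - 2) x N
  have h6 : 4 ≤ 2 ^ j := by
    calc 4 = 2 ^ 2 := by norm_num
      _ ≤ 2 ^ j := Nat.pow_le_pow_right (by norm_num) hj
  have h2 : 2 ^ j * (T2 (2 ^ j - 2) x N).card ≤ 20 * x := by
    have h3 : 2 ^ j ≤ 2 * (2 ^ j - 2) := by omega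
    calc 2 ^ j * (T2 (2 ^ j - 2) x N).card ≤ 2 * (2 ^ j - 2) * (T2 (2 ^ j - 2) x N).card :=
          Nat.mul_le_mul_right _ h3
      _ = 2 * ((2 ^ j - 2) * (T2 (2 ^ j - 2) x N).card) := by ring
      _ ≤ 2 * (10 * x) := Nat.mul_le_mul_left _ h1
      _ = 20 * x := by ring
  have h4 : (2 : ℝ) ^ j * ((T2 (2 ^ j - 2) x N).card : ℝ) ≤ 20 * x := by exact_mod_cast h2
  have h5 : (0 : ℝ) < 2 ^ j := by positivity
  have h7 : (20 : ℝ) * (1 / 2) ^ j * x = 20 * x / 2 ^ j := by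
    rw [one_div, inv_pow]
    field_simp
  rw [h7, le_div_iff₀ h5]
  linarith

theorem ud_deep (j : ℕ) (hj : 2 ≤ j) : upperDensity {k | j ≤ u k} ≤ 24 * (1 / 2) ^ j := by
  refine ud_le fun x hx => ?_
  have hsub : {k | j ≤ u k} ∩ Set.Icc 1 x ⊆
      ((T1 j x ∪ T2 (2 ^ j - 2) x (x + 1) : Finset ℕ) : Set ℕ) := by
    rintro k ⟨h1, h2⟩
    exact cover hj h2.2 h1
  have h1 : ({k | j ≤ u k} ∩ Set.Icc 1 x).ncard ≤ (T1 j x).card + (T2 (2 ^ j - 2) x (x + 1)).card := by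
    calc ({k | j ≤ u k} ∩ Set.Icc 1 x).ncard
        ≤ ((T1 j x ∪ T2 (2 ^ j - 2) x (x + 1) : Finset ℕ) : Set ℕ).ncard :=
          Set.ncard_le_ncard hsub (Finset.finite_toSet _)
      _ = (T1 j x ∪ T2 (2 ^ j - 2) x (x + 1)).card := Set.ncard_coe_finset _
      _ ≤ _ := Finset.card_union_le _ _
  have h2 : ((({k | j ≤ u k} ∩ Set.Icc 1 x).ncard : ℕ) : ℝ) ≤
      ((T1 j x).card : ℝ) + ((T2 (2 ^ j - 2) x (x + 1)).card : ℝ) := by exact_mod_cast h1
  have h3 := card_T1' j x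
  have h4 := card_T2' j x (x + 1) hj
  calc ((({k | j ≤ u k} ∩ Set.Icc 1 x).ncard : ℕ) : ℝ)
      ≤ 4 * (1 / 2) ^ j * x + 20 * (1 / 2) ^ j * x := by linarith
    _ = 24 * (1 / 2) ^ j * x := by ring

theorem taskUFreq : TaskUFreq := by
  refine ⟨E, u, data, fun a ha => ud_E a ha, fun δ hδ => ?_⟩
  obtain ⟨n, hn⟩ := exists_pow_lt_of_lt_one (show (0 : ℝ) < δ / 24 by positivity)
    (show (1 / 2 : ℝ) < 1 by norm_num)
  refine ⟨n + 2, lt_of_le_of_lt (ud_deep (n + 2) (by omega)) ?_⟩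
  have h1 : (1 / 2 : ℝ) ^ (n + 2) ≤ (1 / 2) ^ n :=
    pow_le_pow_of_le_one (by norm_num) (by norm_num) (by omega)
  rw [lt_div_iff₀ (by norm_num)] at hn
  linarith

end Pool.Agent.H664R3.UF
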